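import Pool.Agent.helper77.BND.SpecB

/-!
# Project bnd (MP_376aaf_an): row BTZ
-/

set_option autoImplicit false

open scoped Topology Matrix
open Filter Finset

namespace Pool.Agent.BND

open Pool.Agent.CZ Pool.Agent.PV

/-- a continuous function on an interval with integral values is constant -/
theorem BTZ_const (f : ℝ → ℂ) (hf : ContinuousOn f U) (h : ∀ s ∈ U, ∃ r : ℕ, f s = r) :
    ∀ s ∈ U, ∀ s' ∈ U, f s = f s' := by
  intro s hs s' hs'
  have hd : DiscreteTopology (Set.range ((↑) : ℕ → ℂ)) := by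
    refine DiscreteTopology.of_forall_le_dist (r := 1) one_pos ?_
    rintro ⟨_, a, rfl⟩ ⟨_, b, rfl⟩ hab
    have hab' : a ≠ b := by
      rintro rfl
      exact hab rfl
    show (1 : ℝ) ≤ dist ((a : ℕ) : ℂ) ((b : ℕ) : ℂ)
    have h1 : dist ((a : ℕ) : ℂ) ((b : ℕ) : ℂ) = |((a : ℤ) - (b : ℤ) : ℤ)| := by
      rw [dist_eq_norm]
      have h2 : ((a : ℕ) : ℂ) - ((b : ℕ) : ℂ) = (((a : ℤ) - (b : ℤ) : ℤ) : ℂ) := by push_cast; ring
      rw [h2, Complex.norm_intCast]
      push_cast
      rfl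
    rw [h1]
    have h3 : (a : ℤ) - (b : ℤ) ≠ 0 := by omega
    exact_mod_cast Int.one_le_abs h3
  have hU : IsPreconnected U := isPreconnected_Icc
  exact hU.constant_of_mapsTo (T := Set.range ((↑) : ℕ → ℂ)) (isDiscrete_iff_discreteTopology.2 hd) hf (fun x hx => by
    obtain ⟨r, hr⟩ := h x hx
    exact ⟨r, hr.symm⟩) hs hs'

theorem BTZ_list {κ : Type} [Fintype κ] (u : List ℕ) (f : κ → ℕ → ℂ) :
    ∑ a : κ, (u.map (f a)).sum = (u.map fun v => ∑ a : κ, f a v).sum := by
  induction u with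
  | nil => simp
  | cons v u ih =>
    simp only [List.map_cons, List.sum_cons, Finset.sum_add_distrib, ih]

theorem BTZ_cast (u : List ℕ) (t : ℕ → ℂ) (z : ℕ → ℤ) (h : ∀ v ∈ u, t v = z v) :
    (u.map t).sum = (((u.map z).sum : ℤ) : ℂ) := by
  induction u with
  | nil => simp
  | cons v u ih =>
    rw [List.map_cons, List.sum_cons, List.map_cons, List.sum_cons, Int.cast_add,
      ih (fun w hw => h w (List.mem_cons_of_mem _ hw)), h v List.mem_cons_self]

theorem BTZ (hBEV : BEV_stmt) (hBFG : BFG_stmt) (hBDM : BDM_stmt) (hTRI : TRI_stmt) : BTZ_stmt := by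
  intro B M _ α A _ ι u c hC S hS m κ _ E hE G hG
  classical
  have hL : IsLv (B.L m) := hC.bs.lv m
  have hex : ∀ a b : κ, ∃ G' : ℕ → ℝ → ℕ → ℕ → ℂ, IsFm (B.L m) G' ∧ Fam B c m (E a b : A) G' :=
    fun a b => hBFG B M α A ι u c hC m (E a b : A) ((hS.mem m _).1 (E a b).2)
  choose G' hG'1 hG'2 using hex
  -- the traces are natural numbers, and do not depend on the family
  have key : ∀ e s, e < (B.L m).N → s ∈ U →
      (∑ a : κ, ∑ i ∈ range ((B.L m).h e), G a a e s i i =
        ∑ a : κ, ∑ i ∈ range ((B.L m).h e), G' a a e s i i) ∧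
      ∃ r : ℕ, ∑ a : κ, ∑ i ∈ range ((B.L m).h e), G' a a e s i i = r := by
    intro e s he hs
    obtain ⟨π, hπ⟩ := hBEV B M α A ι u c hC S hS m e s he hs
    constructor
    · refine Finset.sum_congr rfl (fun a _ => Finset.sum_congr rfl (fun i hi => ?_))
      have hi' := Finset.mem_range.1 hi
      have h1 := hπ (E a a) (G a a) (hG a a) ⟨i, hi'⟩ ⟨i, hi'⟩
      have h2 := hπ (E a a) (G' a a) (hG'2 a a) ⟨i, hi'⟩ ⟨i, hi'⟩
      rw [← h1, ← h2]
    · obtain ⟨r, x, y, hr, _, _⟩ := hTRI (κ × Fin ((B.L m).h e))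
        (Matrix.of fun p q => π (E p.1 q.1) p.2 q.2) (by
          ext p q
          rw [Matrix.mul_apply, Fintype.sum_prod_type]
          simp only [Matrix.of_apply]
          have h1 : ∀ b : κ, ∑ k, π (E p.1 b) p.2 k * π (E b q.1) k q.2 =
              (π (E p.1 b * E b q.1)) p.2 q.2 := by
            intro b
            rw [map_mul, Matrix.mul_apply]
          simp only [h1]
          have h2 : ∑ b : κ, (π (E p.1 b * E b q.1)) p.2 q.2 =
              (π (∑ b : κ, E p.1 b * E b q.1)) p.2 q.2 := by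
            rw [map_sum, Matrix.sum_apply]
          rw [h2, ← Matrix.mul_apply, hE])
      refine ⟨r, ?_⟩
      rw [← hr, Matrix.trace, Fintype.sum_prod_type]
      refine Finset.sum_congr rfl (fun a _ => ?_)
      rw [Finset.sum_range]
      refine Finset.sum_congr rfl (fun i _ => ?_)
      rw [Matrix.diag_apply, Matrix.of_apply]
      exact (hπ (E a a) (G' a a) (hG'2 a a) i i).symm
  -- the values at the vertices
  have hz : ∃ z : ℕ → ℤ, ∀ v, v < (B.L m).N →
      ∑ a : κ, ∑ i ∈ range ((B.L m).h v), G' a a v 0 i i = z v := by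
    have h0 : (0 : ℝ) ∈ U := ⟨le_rfl, zero_le_one⟩
    have h1 : ∀ v, ∃ r : ℤ, v < (B.L m).N →
        ∑ a : κ, ∑ i ∈ range ((B.L m).h v), G' a a v 0 i i = r := by
      intro v
      by_cases hv : v < (B.L m).N
      · obtain ⟨r, hr⟩ := (key v 0 hv h0).2
        exact ⟨r, fun _ => by rw [hr]; push_cast; rfl⟩
      · exact ⟨0, fun h => absurd h hv⟩
    choose z hz using h1
    exact ⟨z, hz⟩
  obtain ⟨z, hz⟩ := hz
  refine ⟨z, fun e s b he hs => ?_⟩
  rw [(key e s he hs).1]
  have hb : (if b then (1 : ℝ) else 0) ∈ U := by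
    cases b
    · exact ⟨le_rfl, zero_le_one⟩
    · exact ⟨zero_le_one, le_rfl⟩
  have hconst := BTZ_const (fun s => ∑ a : κ, ∑ i ∈ range ((B.L m).h e), G' a a e s i i)
    (by
      refine continuousOn_finsetSum _ (fun a _ => continuousOn_finsetSum _ (fun i hi => ?_))
      exact (hG'1 a a).cont e i i he (Finset.mem_range.1 hi) (Finset.mem_range.1 hi))
    (fun s hs => (key e s he hs).2) s hs _ hb
  refine hconst.trans ?_
  show ∑ a : κ, ∑ i ∈ range ((B.L m).h e), G' a a e (if b then (1 : ℝ) else 0) i i = _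
  have h1 : ∀ a : κ, ∑ i ∈ range ((B.L m).h e), G' a a e (if b then (1 : ℝ) else 0) i i =
      (((B.L m).W e b).map fun v => ∑ i ∈ range ((B.L m).h v), G' a a v 0 i i).sum := by
    intro a
    rw [← (hBDM (B.L m).h ((B.L m).W e b)).2.1 (fun v => G' a a v 0), hL.ht e he b]
    refine Finset.sum_congr rfl (fun i hi => ?_)
    exact (hG'1 a a).ends e i i b he (Finset.mem_range.1 hi) (Finset.mem_range.1 hi)
  rw [Finset.sum_congr rfl (fun a _ => h1 a), BTZ_list]
  exact BTZ_cast _ _ z (fun v hv => hz v (lt_of_lt_of_le (hL.mem e he b v hv) hL.nN))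

end Pool.Agent.BND
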