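import Pool.Agent.helper53.BND.SpecL

set_option autoImplicit false

open scoped Topology Matrix
open Filter Finset

namespace Pool.Agent.BND

open Pool.Agent.CZ Pool.Agent.PV

/-- `ι f` is in `S m` if `f` is a function of `x m` -/
theorem LIX_ins (B : BS) (M : ℕ → ℕ → ℕ → ℕ) [CompactSpace ↥(XS B)] (α : ↥(XS B) ≃ₜ ↥(XS B)) (A : Type) [CStarAlgebra A]
    (ι : C(↥(XS B), ℂ) →⋆ₐ[ℂ] A) (u : unitary A) (c : ℤ → A →ₗ[ℂ] C(↥(XS B), ℂ)) (hC : CPr B M α ι u c)
    (m : ℕ) (f : C(↥(XS B), ℂ)) (hf : ∀ x y : ↥(XS B), x.1 m = y.1 m → f x = f y) : InS B ι u c m (ι f) := by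
  have h0 : up u 0 = 1 := by
    unfold up
    simp
  have h1 : ∀ n : ℤ, c n (ι f) = if n = 0 then f else 0 := by
    intro n
    have h2 := hC.cov.cval n 0 f
    rw [h0, mul_one] at h2
    exact h2
  refine ⟨?_, ?_, ?_⟩
  · intro n x y hxy
    rw [h1]
    split_ifs with h
    · exact hf x y hxy
    · rfl
  · intro n x e s i he hs hi hx hn
    rw [h1]
    have hn0 : n ≠ 0 := by
      rintro rfl
      apply hn
      constructor
      · omega
      · omega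
    rw [if_neg hn0]
    rfl
  · intro H _
    rw [Finset.sum_eq_single (0 : ℤ)]
    · rw [h1, if_pos rfl, h0, mul_one]
    · intro b _ hb
      rw [h1, if_neg hb, map_zero, zero_mul]
    · intro h
      exfalso
      apply h
      rw [Finset.mem_Icc]
      constructor
      · omega
      · omega

/-- the entries of the inverse of a matrix of functions of `x m` are functions of `x m` -/
theorem LIX_inv (B : BS) [CompactSpace ↥(XS B)] (m n : ℕ) (g : (Matrix (Fin n) (Fin n) C(↥(XS B), ℂ))ˣ)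
    (hg : ∀ i j, ∀ x y : ↥(XS B), x.1 m = y.1 m → (g : Matrix (Fin n) (Fin n) C(↥(XS B), ℂ)) i j x =
      (g : Matrix (Fin n) (Fin n) C(↥(XS B), ℂ)) i j y) :
    ∀ i j, ∀ x y : ↥(XS B), x.1 m = y.1 m → ((g⁻¹ : (Matrix (Fin n) (Fin n) C(↥(XS B), ℂ))ˣ) : Matrix (Fin n) (Fin n) C(↥(XS B), ℂ)) i j x =
      ((g⁻¹ : (Matrix (Fin n) (Fin n) C(↥(XS B), ℂ))ˣ) : Matrix (Fin n) (Fin n) C(↥(XS B), ℂ)) i j y := by
  intro i j x y hxy
  let ev : ∀ _ : ↥(XS B), C(↥(XS B), ℂ) →+* ℂ := fun x => (evC ℂ x).toRingHom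
  have hx : umap (ev x) g = umap (ev y) g := by
    apply Units.ext
    ext a b
    exact hg a b x y hxy
  have hx' : (umap (ev x) g)⁻¹ = (umap (ev y) g)⁻¹ := by rw [hx]
  have e1 : ∀ z : ↥(XS B), (umap (ev z) g)⁻¹ = umap (ev z) g⁻¹ := by
    intro z
    unfold umap
    rw [map_inv]
  rw [e1, e1] at hx'
  have h3 := congrArg (fun k : (Matrix (Fin n) (Fin n) ℂ)ˣ => (k : Matrix (Fin n) (Fin n) ℂ) i j) hx'
  exact h3

theorem LIX (hK1G : K1G_stmt) (hK1M : K1M_stmt) (hK1C : K1C_stmt) (hBLF : BLF_stmt) : LIX_stmt := by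
  intro B M _ α A _ ι u c hC S hS hi w
  obtain ⟨n, g, rfl⟩ := hK1G C(↥(XS B), ℂ) w
  obtain ⟨ε, hε, hε'⟩ := hK1C C(↥(XS B), ℂ) (Fin n) g
  have hb : ∀ i j : Fin n, ∃ m₀, ∀ m, m₀ ≤ m → ∃ F : Am → ℂ, ContinuousOn F (FS (B.L m)) ∧
      ∀ x : ↥(XS B), ‖(g : Matrix (Fin n) (Fin n) C(↥(XS B), ℂ)) i j x - F (x.1 m)‖ ≤ ε / 2 :=
    fun i j => hBLF B M hC.bs _ (ε / 2) (half_pos hε)
  choose m₀ hm₀ using hb
  have hmax : ∃ m, ∀ i j, m₀ i j ≤ m :=
    ⟨∑ i : Fin n, ∑ j : Fin n, m₀ i j, fun i j => by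
      have h1 : m₀ i j ≤ ∑ j : Fin n, m₀ i j :=
        Finset.single_le_sum (f := fun j => m₀ i j) (fun _ _ => Nat.zero_le _) (Finset.mem_univ j)
      have h2 : (∑ j : Fin n, m₀ i j) ≤ ∑ i : Fin n, ∑ j : Fin n, m₀ i j :=
        Finset.single_le_sum (f := fun i => ∑ j : Fin n, m₀ i j) (fun _ _ => Nat.zero_le _) (Finset.mem_univ i)
      exact h1.trans h2⟩
  obtain ⟨m, hm⟩ := hmax
  have hF : ∀ i j : Fin n, ∃ F : Am → ℂ, ContinuousOn F (FS (B.L m)) ∧
      ∀ x : ↥(XS B), ‖(g : Matrix (Fin n) (Fin n) C(↥(XS B), ℂ)) i j x - F (x.1 m)‖ ≤ ε / 2 :=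
    fun i j => hm₀ i j m (hm i j)
  choose F hFc hFn using hF
  have hcont : ∀ i j, Continuous fun x : ↥(XS B) => F i j (x.1 m) := by
    intro i j
    have h1 : Continuous fun x : ↥(XS B) => x.1 m := (continuous_apply m).comp continuous_subtype_val
    exact (hFc i j).comp_continuous h1 fun x => (x.2 m).1
  let h : Matrix (Fin n) (Fin n) C(↥(XS B), ℂ) := fun i j => ⟨fun x => F i j (x.1 m), hcont i j⟩
  obtain ⟨k, hk, hgk⟩ := hε' h (by
    intro i j
    have h1 : ‖(g : Matrix (Fin n) (Fin n) C(↥(XS B), ℂ)) i j - h i j‖ ≤ ε / 2 := by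
      rw [ContinuousMap.norm_le _ (half_pos hε).le]
      intro x
      exact hFn i j x
    exact lt_of_le_of_lt h1 (half_lt_self hε))
  have hk1 : ∀ i j, ∀ x y : ↥(XS B), x.1 m = y.1 m → (k : Matrix (Fin n) (Fin n) C(↥(XS B), ℂ)) i j x =
      (k : Matrix (Fin n) (Fin n) C(↥(XS B), ℂ)) i j y := by
    intro i j x y hxy
    rw [hk]
    change F i j (x.1 m) = F i j (y.1 m)
    rw [hxy]
  have hk2 := LIX_inv B m n k hk1
  have e1 : k1 g = k1 k := (hK1M C(↥(XS B), ℂ) (Fin n) g k).2.2.2 hgk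
  have key : ∃ q : (Matrix (Fin n) (Fin n) (S m))ˣ, umap (S m).val.toRingHom q = umap ι.toAlgHom.toRingHom k := by
    refine ⟨⟨fun i j => ⟨ι ((k : Matrix (Fin n) (Fin n) C(↥(XS B), ℂ)) i j),
        (hS.mem m _).2 (LIX_ins B M α A ι u c hC m _ (hk1 i j))⟩,
      fun i j => ⟨ι (((k⁻¹ : (Matrix (Fin n) (Fin n) C(↥(XS B), ℂ))ˣ) : Matrix (Fin n) (Fin n) C(↥(XS B), ℂ)) i j),
        (hS.mem m _).2 (LIX_ins B M α A ι u c hC m _ (hk2 i j))⟩, ?_, ?_⟩, ?_⟩
    · have h1 : (umap ι.toAlgHom.toRingHom k : Matrix (Fin n) (Fin n) A) *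
          ((umap ι.toAlgHom.toRingHom k)⁻¹ : (Matrix (Fin n) (Fin n) A)ˣ) = 1 := Units.mul_inv _
      have h2 : Function.Injective fun X : Matrix (Fin n) (Fin n) (S m) => (S m).val.toRingHom.mapMatrix X := by
        intro X Y hXY
        ext i j
        exact congrFun (congrFun hXY i) j
      apply h2
      simp only [map_mul, map_one]
      exact h1
    · have h1 : (((umap ι.toAlgHom.toRingHom k)⁻¹ : (Matrix (Fin n) (Fin n) A)ˣ) : Matrix (Fin n) (Fin n) A) *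
          (umap ι.toAlgHom.toRingHom k : Matrix (Fin n) (Fin n) A) = 1 := Units.inv_mul _
      have h2 : Function.Injective fun X : Matrix (Fin n) (Fin n) (S m) => (S m).val.toRingHom.mapMatrix X := by
        intro X Y hXY
        ext i j
        exact congrFun (congrFun hXY i) j
      apply h2
      simp only [map_mul, map_one]
      exact h1
    · apply Units.ext
      rfl
  obtain ⟨q, hq⟩ := key
  refine ⟨m, k1 q, ?_⟩
  rw [e1, k1map_k1, k1map_k1, hq]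

end Pool.Agent.BND
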